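import Pool.Agent.W182.KO.Fin1
import Pool.Agent.W182.KO.Fin2

set_option autoImplicit false

/-! Both outer bands of the shifted moments, with square root remainder. -/

namespace Pool.Agent.Y752.Edge

open Complex Filter Topology MeasureTheory Set
open Pool.Agent.W182.KO
open scoped ContDiff

noncomputable section

/-- the shifted moment integral -/
def MI {k : ℕ} (z w : Fin k → ℝ) (y T : ℝ) : ℂ :=
  ∫ t in (0:ℝ)..T, (∏ j, riemannZeta (1 / 2 + I * (y + t + z j))) *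
    ∏ j, riemannZeta (1 / 2 + I * (y - t + w j))

/-- the test function -/
def ph (ψ : ℝ → ℂ) (y : ℝ) : ℂ := ∫ ξ : ℝ, ψ ξ * exp (I * ξ * y)

lemma ph_eq (ψ : ℝ → ℂ) (L y : ℝ) : ph ψ (L * y) = P ψ (L * y * I) := by
  unfold ph P
  congr 1; funext ξ
  congr 2
  push_cast
  ring

lemma MI_eq {k : ℕ} (z w : Fin k → ℝ) (y T : ℝ) : MI z w y T =
    ∫ t in (0:ℝ)..T, ZP z (1 / 2 + (y + t : ℝ) * I) * ZP w (1 / 2 + (y - t : ℝ) * I) := by
  unfold MI ZP
  refine intervalIntegral.integral_congr fun t _ => ?_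
  congr 1
  · refine Finset.prod_congr rfl fun j _ => ?_
    congr 1
    push_cast
    ring
  · refine Finset.prod_congr rfl fun j _ => ?_
    congr 1
    push_cast
    ring

theorem integrable {ψ : ℝ → ℂ} (hψ : ContDiff ℝ ∞ ψ) (hc : HasCompactSupport ψ) {k : ℕ}
    (z w : Fin k → ℝ) {T : ℝ} (hT : Real.exp 1 ≤ T) :
    Integrable (fun y : ℝ => ph ψ (Real.log T * y) * MI z w y T) := by
  obtain ⟨X, hX0, h⟩ := exists_TF hψ hc
  have hT0 : 0 < T := (Real.exp_pos 1).trans_le hT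
  have hL : 1 ≤ Real.log T := by rwa [Real.le_log_iff_exp_le hT0]
  obtain ⟨D, hD, h1⟩ := tau_ptw k (κ := 1) one_pos
  obtain ⟨C1, G1⟩ := ZP_DF z one_pos hD (h1 z) (le_refl (2 * k)) (le_max_left (RR z) (RR w))
  obtain ⟨C2, G2⟩ := ZP_DF w one_pos hD (h1 w) (le_refl (2 * k)) (le_max_right (RR z) (RR w))
  have h2 := (I0_prodint h G1 G2 hL T).integral_prod_right
  refine h2.congr (Eventually.of_forall fun y => ?_)
  simp only
  rw [ph_eq, MI_eq, intervalIntegral.integral_of_le hT0.le, integral_const_mul]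

theorem low {ψ : ℝ → ℂ} (hψ : ContDiff ℝ ∞ ψ) (hc : HasCompactSupport ψ)
    (h1 : ∀ ξ, 1 < ξ → ψ ξ = 0) {k : ℕ} (z w : Fin k → ℝ) {ε : ℝ} (hε : 0 < ε) :
    ∃ C T₀ : ℝ, ∀ T : ℝ, T₀ ≤ T →
      ‖(∫ y : ℝ, ph ψ (Real.log T * y) * MI z w y T) -
        (T : ℂ) * (((2 * Real.pi / Real.log T : ℝ) : ℂ) *
          ∑' n : ℕ, tau (fun j => -(z j * I)) n * tau (fun j => -(w j * I)) n / n *
            ψ (2 * Real.log n / Real.log T))‖ ≤ C * T ^ (1 / 2 + ε) := by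
  have hTF : TF 1 ψ := ⟨hψ, hc, h1⟩
  set θ : ℝ := min 1 (1 / 2 + ε) with hθ
  have hθ1 : 1 / 2 < θ := lt_min (by norm_num) (by linarith)
  obtain ⟨C, T1, hC, hT1, h⟩ := shifted hTF zero_le_one (θ := θ) (by linarith) hθ1.le
    (min_le_left _ _) z w
  refine ⟨C, T1, fun T hT => ?_⟩
  have h2 := h T hT
  have hT1' : 1 ≤ T := hT1.trans hT
  simp only [ph_eq, MI_eq]
  refine h2.trans ?_
  gcongr
  exact min_le_right _ _

theorem high {ψ : ℝ → ℂ} (hψ : ContDiff ℝ ∞ ψ) (hc : HasCompactSupport ψ) {k : ℕ} (hk : 1 ≤ k)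
    (h1 : ∀ ξ : ℝ, ξ < 2 * (k : ℝ) - 1 → ψ ξ = 0) (z w : Fin k → ℝ) {ε : ℝ} (hε : 0 < ε) :
    ∃ C T₀ : ℝ, ∀ T : ℝ, T₀ ≤ T →
      ‖(∫ y : ℝ, ph ψ (Real.log T * y) * MI z w y T) -
        ((2 * Real.pi / Real.log T : ℝ) : ℂ) *
        ∑' n : ℕ, tau (fun j => w j * I) n * tau (fun j => z j * I) n / n *
          ∫ t in (1:ℝ)..T, exp ((-(∑ j, (z j + w j)) * Real.log (t / (2 * Real.pi)) : ℝ) * I) *
            ψ ((2 * k * Real.log (t / (2 * Real.pi)) - 2 * Real.log n) / Real.log T)‖ ≤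
      C * T ^ (1 / 2 + ε) := by
  obtain ⟨C, T1, hC, hT1, h⟩ := W182.KO.upper hψ hc h1 hk (by linarith) (θ := 1 / 2 + ε) (by linarith) z w
  refine ⟨C, T1, fun T hT => ?_⟩
  have h2 := h T hT
  simp only [ph_eq, MI_eq]
  exact h2

lemma split_one {ψ : ℝ → ℂ} (hcd : ContDiff ℝ ∞ ψ) (hcs : HasCompactSupport ψ) {δ : ℝ}
    (hδ : 0 < δ) (h2 : ∀ ξ, |ξ - 1| < δ → ψ ξ = 0) :
    ContDiff ℝ ∞ (fun ξ => if ξ < 1 then ψ ξ else 0) ∧
    HasCompactSupport (fun ξ => if ξ < 1 then ψ ξ else 0) ∧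
    ContDiff ℝ ∞ (fun ξ => if ξ < 1 then 0 else ψ ξ) ∧
    HasCompactSupport (fun ξ => if ξ < 1 then 0 else ψ ξ) := by
  refine ⟨?_, ?_, ?_, ?_⟩
  · rw [contDiff_iff_contDiffAt]
    intro x
    rcases lt_or_ge x 1 with hx | hx
    · refine (hcd.contDiffAt (x := x)).congr_of_eventuallyEq ?_
      filter_upwards [gt_mem_nhds hx] with ξ hξ
      rw [if_pos hξ]
    · refine (contDiffAt_const (c := (0:ℂ))).congr_of_eventuallyEq ?_
      filter_upwards [lt_mem_nhds (show 1 - δ < x by linarith)] with ξ hξ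
      split_ifs with h
      · exact h2 ξ (by rw [abs_lt]; constructor <;> linarith)
      · rfl
  · refine hcs.mono fun x hx => ?_
    rw [Function.mem_support] at hx ⊢
    intro h
    apply hx
    rw [h]; simp
  · rw [contDiff_iff_contDiffAt]
    intro x
    rcases lt_or_ge 1 x with hx | hx
    · refine (hcd.contDiffAt (x := x)).congr_of_eventuallyEq ?_
      filter_upwards [lt_mem_nhds hx] with ξ hξ
      rw [if_neg (by linarith)]
    · refine (contDiffAt_const (c := (0:ℂ))).congr_of_eventuallyEq ?_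
      filter_upwards [gt_mem_nhds (show x < 1 + δ by linarith)] with ξ hξ
      split_ifs with h
      · rfl
      · exact h2 ξ (by rw [abs_lt]; constructor <;> linarith)
  · refine hcs.mono fun x hx => ?_
    rw [Function.mem_support] at hx ⊢
    intro h
    apply hx
    rw [h]; simp

theorem both {ψ : ℝ → ℂ} (hψ : ContDiff ℝ ∞ ψ) (hc : HasCompactSupport ψ) {k : ℕ} (hk : 1 ≤ k)
    (hs : ∀ ξ ∈ Icc (1:ℝ) (2 * (k : ℝ) - 1), ξ ∉ tsupport ψ) (z w : Fin k → ℝ) {ε : ℝ} (hε : 0 < ε) :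
    ∃ C T₀ : ℝ, ∀ T : ℝ, T₀ ≤ T →
      ‖(∫ y : ℝ, ph ψ (Real.log T * y) * MI z w y T) -
        ((2 * Real.pi / Real.log T : ℝ) : ℂ) *
        ((T : ℂ) * (∑' n : ℕ, tau (fun j => -(z j * I)) n * tau (fun j => -(w j * I)) n / n *
            (if 2 * Real.log n / Real.log T < 1 then ψ (2 * Real.log n / Real.log T) else 0)) +
          ∑' n : ℕ, tau (fun j => w j * I) n * tau (fun j => z j * I) n / n *
          ∫ t in (1:ℝ)..T, exp ((-(∑ j, (z j + w j)) * Real.log (t / (2 * Real.pi)) : ℝ) * I) *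
            (if (2 * k * Real.log (t / (2 * Real.pi)) - 2 * Real.log n) / Real.log T < 1 then 0 else
              ψ ((2 * k * Real.log (t / (2 * Real.pi)) - 2 * Real.log n) / Real.log T)))‖ ≤
      C * T ^ (1 / 2 + ε) := by
  have hk1 : (1:ℝ) ≤ k := by exact_mod_cast hk
  obtain ⟨δ1, hδ1, hv1⟩ := vanish_near (hs 1 ⟨le_rfl, by linarith⟩)
  obtain ⟨c1, s1, c2, s2⟩ := split_one hψ hc hδ1 hv1
  set ψ1 : ℝ → ℂ := fun ξ => if ξ < 1 then ψ ξ else 0 with hψ1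
  set ψ2 : ℝ → ℂ := fun ξ => if ξ < 1 then 0 else ψ ξ with hψ2
  have h1 : ∀ ξ, 1 < ξ → ψ1 ξ = 0 := fun ξ hξ => by
    rw [hψ1]
    simp only
    rw [if_neg (by linarith)]
  have h2 : ∀ ξ : ℝ, ξ < 2 * (k : ℝ) - 1 → ψ2 ξ = 0 := by
    intro ξ hξ
    rw [hψ2]
    simp only
    split_ifs with h
    · rfl
    · push Not at h
      exact image_eq_zero_of_notMem_tsupport (hs ξ ⟨h, hξ.le⟩)
  obtain ⟨C1, T1, l1⟩ := low c1 s1 h1 z w hε
  obtain ⟨C2, T2, l2⟩ := high c2 s2 hk h2 z w hε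
  refine ⟨C1 + C2, max (Real.exp 1) (max T1 T2), fun T hT => ?_⟩
  have hTe : Real.exp 1 ≤ T := (le_max_left _ _).trans hT
  have g1 := l1 T (((le_max_left _ _).trans (le_max_right _ _)).trans hT)
  have g2 := l2 T (((le_max_right _ _).trans (le_max_right _ _)).trans hT)
  have i1 := integrable c1 s1 z w hTe
  have i2 := integrable c2 s2 z w hTe
  obtain ⟨X1, _, t1⟩ := exists_TF c1 s1
  obtain ⟨X2, _, t2⟩ := exists_TF c2 s2
  have hadd : ∫ y : ℝ, ph ψ (Real.log T * y) * MI z w y T =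
      (∫ y : ℝ, ph ψ1 (Real.log T * y) * MI z w y T) +
        ∫ y : ℝ, ph ψ2 (Real.log T * y) * MI z w y T := by
    rw [← integral_add i1 i2]
    congr 1; funext y
    rw [← add_mul]
    congr 1
    rw [ph_eq, ph_eq, ph_eq]
    unfold P
    rw [← integral_add (t1.int_exp _) (t2.int_exp _)]
    congr 1; funext ξ
    rw [← add_mul]
    congr 1
    rw [hψ1, hψ2]
    simp only
    split_ifs <;> simp
  rw [hadd]
  refine le_trans (le_of_eq ?_) ((norm_add_le _ _).trans ((add_le_add g1 g2).trans (le_of_eq ?_)))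
  · congr 1
    ring
  · ring

end

end Pool.Agent.Y752.Edge
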